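import Pool.Agent.Run7.h325.HRT.Stm

/-!
# HRT project (helper325), piece KPOS (helper688)
-/

set_option autoImplicit false

namespace Pool.Agent.Run7.h688.HRT

open Pool.Agent.Run7.h325.HRT

lemma D_bd : 1.414 ≤ D ∧ D ≤ 1.415 := by
  unfold D
  constructor
  · apply Real.le_sqrt_of_sq_le
    norm_num
  · rw [Real.sqrt_le_left (by norm_num)]
    norm_num

lemma Nq_pos (m q : ℕ) : (1 : ℝ) ≤ Nq m q := by
  have : 1 ≤ Nq m q := Nat.one_le_pow _ _ (by norm_num)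
  exact_mod_cast this

lemma b_nn (A : ℝ) (h0 : 0 ≤ A) (h1 : A ≤ 1) (N i : ℕ) : 0 ≤ b A N i := by
  unfold b
  have : 0 ≤ 1 - A := by linarith
  positivity

/-- the bounds of `eps` -/
lemma eps_bd (hA : S_APROP) (m q : ℕ) (hm : 1 ≤ m) :
    1.414 * Nq m q / (5 : ℝ) ^ f m (q + 1) ≤ eps m q ∧
      eps m q ≤ 1.77 * Nq m q / (5 : ℝ) ^ f m (q + 1) := by
  obtain ⟨_, _, hq⟩ := hA m hm
  obtain ⟨h1, h2, -⟩ := hq q
  obtain ⟨d1, d2⟩ := D_bd
  have hN := Nq_pos m q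
  have hF : (0 : ℝ) < 5 ^ f m (q + 1) := by positivity
  unfold eps
  constructor
  · rw [div_eq_mul_inv]
    apply mul_le_mul _ h1.le (by positivity) (by positivity)
    exact mul_le_mul_of_nonneg_right d1 (by linarith)
  · calc D * (Nq m q : ℝ) * rho m q ≤ 1.415 * (Nq m q : ℝ) * (5 / 4 * ((5 : ℝ) ^ f m (q + 1))⁻¹) := by
          apply mul_le_mul _ h2 (by have : 0 < ((5 : ℝ) ^ f m (q + 1))⁻¹ := by positivity
                                    linarith) (by positivity)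
          exact mul_le_mul_of_nonneg_right d2 (by linarith)
      _ = (1.415 * (5 / 4)) * Nq m q / (5 : ℝ) ^ f m (q + 1) := by
          rw [div_eq_mul_inv]; ring
      _ ≤ 1.77 * Nq m q / (5 : ℝ) ^ f m (q + 1) := by
          apply div_le_div_of_nonneg_right _ hF.le
          nlinarith

lemma eps_pos (hA : S_APROP) (m q : ℕ) (hm : 1 ≤ m) : 0 < eps m q := by
  have h := (eps_bd hA m q hm).1
  have hN := Nq_pos m q
  refine lt_of_lt_of_le ?_ h
  positivity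

/-- `l² ε` is small -/
lemma sq_eps (hA : S_APROP) (m q L : ℕ) (hm : 1 ≤ m)
    (hL : 50 * L ^ 2 * (Nq m q) ^ 4 ≤ 5 ^ f m (q + 1)) (l : ℕ) (hl : l ≤ L) :
    (l : ℝ) ^ 2 * eps m q ≤ 0.036 := by
  have h := (eps_bd hA m q hm).2
  have hN := Nq_pos m q
  have hF : (0 : ℝ) < 5 ^ f m (q + 1) := by positivity
  have hLr : 50 * (L : ℝ) ^ 2 * (Nq m q : ℝ) ^ 4 ≤ 5 ^ f m (q + 1) := by exact_mod_cast hL
  have hlr : (l : ℝ) ≤ L := by exact_mod_cast hl
  have hl0 : (0 : ℝ) ≤ l := Nat.cast_nonneg _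
  have h1 : (l : ℝ) ^ 2 * eps m q ≤ (L : ℝ) ^ 2 * (1.77 * Nq m q / (5 : ℝ) ^ f m (q + 1)) :=
    mul_le_mul (pow_le_pow_left₀ hl0 hlr 2) h (eps_pos hA m q hm).le (by positivity)
  refine h1.trans ?_
  rw [mul_div_assoc', div_le_iff₀ hF]
  have h2 : (Nq m q : ℝ) ≤ (Nq m q : ℝ) ^ 4 := by
    calc (Nq m q : ℝ) = (Nq m q : ℝ) ^ 1 := (pow_one _).symm
      _ ≤ (Nq m q : ℝ) ^ 4 := pow_le_pow_right₀ hN (by norm_num)
  have h3 : (L : ℝ) ^ 2 * (Nq m q : ℝ) ≤ (L : ℝ) ^ 2 * (Nq m q : ℝ) ^ 4 :=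
    mul_le_mul_of_nonneg_left h2 (by positivity)
  have h4 : 0 ≤ (L : ℝ) ^ 2 * (Nq m q : ℝ) := by positivity
  nlinarith

lemma pi_bd : 3.14 < Real.pi ∧ Real.pi < 3.15 := ⟨Real.pi_gt_d2, Real.pi_lt_d2⟩

/-- lower bound for the sine -/
lemma sin_low (u : ℝ) (h0 : 0 < u) (h1 : u ≤ 1) : u * (1 - u ^ 2 / 4) ≤ Real.sin u := by
  have h := Real.sin_gt_sub_cube h0
  have e : u * (1 - u ^ 2 / 4) = u - u ^ 3 / 4 := by ring
  have : 0 < u ^ 3 := by positivity
  rw [e]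
  linarith

lemma cos_low (u : ℝ) (hu : |u| ≤ 1 / 2) : 8 * u ^ 2 ≤ 1 - Real.cos (2 * Real.pi * u) := by
  have hpi := Real.pi_pos
  have h1 : 1 - Real.cos (2 * Real.pi * u) = 2 * Real.sin (Real.pi * |u|) ^ 2 := by
    have e1 : Real.sin (Real.pi * |u|) ^ 2 = Real.sin (Real.pi * u) ^ 2 := by
      rcases abs_cases u with ⟨h, _⟩ | ⟨h, _⟩
      · rw [h]
      · rw [h, mul_neg, Real.sin_neg, neg_sq]
    have e2 : 2 * Real.pi * u = 2 * (Real.pi * u) := by ring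
    rw [e1, e2, Real.cos_two_mul, Real.sin_sq]
    ring
  have h2 : 2 * |u| ≤ Real.sin (Real.pi * |u|) := by
    have h3 := Real.mul_le_sin (x := Real.pi * |u|) (by positivity) (by nlinarith [abs_nonneg u])
    have e : 2 / Real.pi * (Real.pi * |u|) = 2 * |u| := by field_simp
    rw [e] at h3
    exact h3
  rw [h1]
  have h4 : (2 * |u|) ^ 2 ≤ Real.sin (Real.pi * |u|) ^ 2 :=
    pow_le_pow_left₀ (by positivity) h2 2
  have h5 : (2 * |u|) ^ 2 = 4 * u ^ 2 := by rw [mul_pow, sq_abs]; ring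
  rw [h5] at h4
  linarith

/-- **KPOS** -/
theorem t_KPOS (hA : S_APROP) (hB : S_BIN) (hP : S_PAIR) : S_KPOS := by
  intro m q L hm hq hL1 hL
  obtain ⟨hA0, hA1, _⟩ := hA m hm
  obtain ⟨hB1, hB2, hB3⟩ := hB m q hm hq
  obtain ⟨e1, e2⟩ := eps_bd hA m q hm
  have e0 := eps_pos hA m q hm
  have hsq := sq_eps hA m q L hm hL
  obtain ⟨ε, hε⟩ : ∃ ε : ℝ, ε = eps m q := ⟨_, rfl⟩
  obtain ⟨N, hN⟩ : ∃ N : ℝ, N = (Nq m q : ℝ) := ⟨_, rfl⟩
  have hN1 : 1 ≤ N := by rw [hN]; exact Nq_pos m q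
  rw [← hε] at e1 e2 e0 hsq
  obtain ⟨p1, p2⟩ := pi_bd
  have hpi := Real.pi_pos
  -- bounds for `l ε`
  have hle : ∀ l : ℕ, 1 ≤ l → l ≤ L → (l : ℝ) * ε ≤ 0.036 := by
    intro l h1 h2
    have h3 := hsq l h2
    have h4 : (1 : ℝ) ≤ l := by exact_mod_cast h1
    have h5 : (l : ℝ) * ε ≤ (l : ℝ) ^ 2 * ε := by
      have : 0 ≤ (l : ℝ) * ε := by positivity
      nlinarith
    linarith
  have hs0 : ∀ l : ℕ, 1 ≤ l → l ≤ L → 0 < Real.sin (Real.pi * (l * ε)) := by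
    intro l h1 h2
    have h3 := hle l h1 h2
    have h4 : (1 : ℝ) ≤ l := by exact_mod_cast h1
    apply Real.sin_pos_of_pos_of_lt_pi
    · positivity
    · nlinarith
  have hal : ∀ l : ℕ, al m q l = b (Am m) (l * Nq m q) (l * iq m q) /
      ((l : ℝ) * N * Real.sin (Real.pi * (l * ε))) := by
    intro l
    rw [hN, hε]
    rfl
  have hbn : ∀ N i : ℕ, 0 ≤ b (Am m) N i := fun N i => b_nn _ hA0.le (by linarith) N i
  have ha0 : ∀ l, 1 ≤ l → l ≤ L → 0 ≤ al m q l := by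
    intro l h1 h2
    rw [hal]
    have := hs0 l h1 h2
    have := hbn (l * Nq m q) (l * iq m q)
    positivity
  have ha1 : ∀ l, 1 ≤ l → l + 2 ≤ L → (1 + 4 / (l : ℝ)) * al m q (l + 2) ≤ al m q l := by
    intro l h1 h2
    have s1 := hs0 l h1 (by omega)
    have s2 := hs0 (l + 2) (by omega) h2
    have g1 := hle (l + 2) (by omega) h2
    have g2 := hsq (l + 2) h2
    have hl : (1 : ℝ) ≤ l := by exact_mod_cast h1
    have hb := hB1 l h1
    have hb0 := hbn ((l + 2) * Nq m q) ((l + 2) * iq m q)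
    rw [hal, hal]
    obtain ⟨B, hBd⟩ : ∃ B : ℝ, B = b (Am m) (l * Nq m q) (l * iq m q) := ⟨_, rfl⟩
    obtain ⟨B', hB'⟩ : ∃ B' : ℝ, B' = b (Am m) ((l + 2) * Nq m q) ((l + 2) * iq m q) := ⟨_, rfl⟩
    rw [← hBd, ← hB'] at hb ⊢
    rw [← hB'] at hb0
    push_cast at s2 g1 g2 ⊢
    have hy1 : Real.pi * (((l : ℝ) + 2) * ε) ≤ 1 := by nlinarith
    have hy0 : 0 < Real.pi * (((l : ℝ) + 2) * ε) := by positivity
    have t1 := sin_low _ hy0 hy1
    have t2 : Real.sin (Real.pi * (l * ε)) ≤ Real.pi * (l * ε) := Real.sin_le (by positivity)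
    -- the key inequality
    have key : ((l : ℝ) + 4) * Real.sin (Real.pi * (l * ε)) ≤
        ((l : ℝ) + 2) * Real.sin (Real.pi * (((l : ℝ) + 2) * ε)) := by
      have k1 : ((l : ℝ) + 4) * Real.sin (Real.pi * (l * ε)) ≤ ((l : ℝ) + 4) * (Real.pi * (l * ε)) :=
        mul_le_mul_of_nonneg_left t2 (by positivity)
      have k2 : ((l : ℝ) + 2) * (Real.pi * (((l : ℝ) + 2) * ε) *
          (1 - (Real.pi * (((l : ℝ) + 2) * ε)) ^ 2 / 4)) ≤
          ((l : ℝ) + 2) * Real.sin (Real.pi * (((l : ℝ) + 2) * ε)) :=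
        mul_le_mul_of_nonneg_left t1 (by positivity)
      refine k1.trans (le_trans ?_ k2)
      -- `(l + 4) l ≤ (l+2)² (1 - y²/4)`
      have k3 : ((l : ℝ) + 2) ^ 2 * (Real.pi * (((l : ℝ) + 2) * ε)) ^ 2 / 4 ≤ 4 := by
        have e : ((l : ℝ) + 2) ^ 2 * (Real.pi * (((l : ℝ) + 2) * ε)) ^ 2 / 4 =
            Real.pi ^ 2 * (((l : ℝ) + 2) ^ 2 * ε) ^ 2 / 4 := by ring
        rw [e]
        have h5 : Real.pi ^ 2 ≤ 10 := by nlinarith
        have h6 : (((l : ℝ) + 2) ^ 2 * ε) ^ 2 ≤ 1 := by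
          have : 0 ≤ ((l : ℝ) + 2) ^ 2 * ε := by positivity
          nlinarith
        have h7 : 0 ≤ (((l : ℝ) + 2) ^ 2 * ε) ^ 2 := by positivity
        nlinarith
      have k4 : ((l : ℝ) + 4) * l ≤ ((l : ℝ) + 2) ^ 2 * (1 - (Real.pi * (((l : ℝ) + 2) * ε)) ^ 2 / 4) := by
        nlinarith
      have k5 : 0 < Real.pi * ε := by positivity
      have k6 := mul_le_mul_of_nonneg_left k4 k5.le
      calc ((l : ℝ) + 4) * (Real.pi * (l * ε)) = Real.pi * ε * (((l : ℝ) + 4) * l) := by ring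
        _ ≤ Real.pi * ε * (((l : ℝ) + 2) ^ 2 * (1 - (Real.pi * (((l : ℝ) + 2) * ε)) ^ 2 / 4)) := k6
        _ = _ := by ring
    have hlhs : (1 + 4 / (l : ℝ)) * (B' / (((l : ℝ) + 2) * N * Real.sin (Real.pi * (((l : ℝ) + 2) * ε)))) =
        (((l : ℝ) + 4) * B') / (l * (((l : ℝ) + 2) * N * Real.sin (Real.pi * (((l : ℝ) + 2) * ε)))) := by
      field_simp
    rw [hlhs, div_le_div_iff₀ (by positivity) (by positivity)]
    calc ((l : ℝ) + 4) * B' * (l * N * Real.sin (Real.pi * (l * ε)))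
        = (l * N * B') * (((l : ℝ) + 4) * Real.sin (Real.pi * (l * ε))) := by ring
      _ ≤ (l * N * B') * (((l : ℝ) + 2) * Real.sin (Real.pi * (((l : ℝ) + 2) * ε))) :=
          mul_le_mul_of_nonneg_left key (by positivity)
      _ ≤ (l * N * B) * (((l : ℝ) + 2) * Real.sin (Real.pi * (((l : ℝ) + 2) * ε))) := by
          apply mul_le_mul_of_nonneg_right _ (by positivity)
          exact mul_le_mul_of_nonneg_left hb (by positivity)
      _ = B * (l * (((l : ℝ) + 2) * N * Real.sin (Real.pi * (((l : ℝ) + 2) * ε)))) := by ring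
  have ha2 : ∀ l, 1 ≤ l → l ≤ L → al m q l * ((l : ℝ) ^ 2 * Real.sqrt l) ≤ 1.02 * al m q 1 := by
    intro l h1 h2
    have s1 := hs0 l h1 h2
    have s2 := hs0 1 le_rfl hL1
    have g1 := hle l h1 h2
    have hl : (1 : ℝ) ≤ l := by exact_mod_cast h1
    have hb := hB2 l h1
    have hb0 := hbn (Nq m q) (iq m q)
    rw [hal, hal, one_mul, one_mul]
    rw [Nat.cast_one, one_mul, one_mul] at *
    obtain ⟨B, hBd⟩ : ∃ B : ℝ, B = b (Am m) (l * Nq m q) (l * iq m q) := ⟨_, rfl⟩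
    obtain ⟨B', hB'⟩ : ∃ B' : ℝ, B' = b (Am m) (Nq m q) (iq m q) := ⟨_, rfl⟩
    rw [← hBd, ← hB'] at hb ⊢
    rw [← hB'] at hb0
    have hy1 : Real.pi * (l * ε) ≤ 1 := by nlinarith
    have hy0 : 0 < Real.pi * (l * ε) := by positivity
    have t1 := sin_low _ hy0 hy1
    have t2 : Real.sin (Real.pi * ε) ≤ Real.pi * ε := Real.sin_le (by positivity)
    have key : 1.01 * (l : ℝ) * Real.sin (Real.pi * ε) ≤ 1.02 * Real.sin (Real.pi * (l * ε)) := by
      have k1 : 1.01 * (l : ℝ) * Real.sin (Real.pi * ε) ≤ 1.01 * (l : ℝ) * (Real.pi * ε) :=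
        mul_le_mul_of_nonneg_left t2 (by positivity)
      have k2 : (Real.pi * (l * ε)) ^ 2 ≤ 0.02 := by
        have h5 : Real.pi * (l * ε) ≤ 0.12 := by nlinarith
        nlinarith
      have k3 : 1.01 * (Real.pi * (l * ε)) ≤ 1.02 * (Real.pi * (l * ε) * (1 - (Real.pi * (l * ε)) ^ 2 / 4)) := by
        have : (1.01 : ℝ) ≤ 1.02 * (1 - (Real.pi * (l * ε)) ^ 2 / 4) := by linarith
        nlinarith
      calc 1.01 * (l : ℝ) * Real.sin (Real.pi * ε) ≤ 1.01 * (l : ℝ) * (Real.pi * ε) := k1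
        _ = 1.01 * (Real.pi * (l * ε)) := by ring
        _ ≤ 1.02 * (Real.pi * (l * ε) * (1 - (Real.pi * (l * ε)) ^ 2 / 4)) := k3
        _ ≤ 1.02 * Real.sin (Real.pi * (l * ε)) := by linarith
    have hlhs : B / ((l : ℝ) * N * Real.sin (Real.pi * (l * ε))) * ((l : ℝ) ^ 2 * Real.sqrt l) =
        (B * Real.sqrt l * l) / (N * Real.sin (Real.pi * (l * ε))) := by
      field_simp
    rw [hlhs, mul_div_assoc', div_le_div_iff₀ (by positivity) (by positivity)]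
    calc B * Real.sqrt l * l * (N * Real.sin (Real.pi * ε))
        ≤ (1.01 * B') * l * (N * Real.sin (Real.pi * ε)) := by
          apply mul_le_mul_of_nonneg_right _ (by positivity)
          exact mul_le_mul_of_nonneg_right hb (by positivity)
      _ = B' * N * (1.01 * (l : ℝ) * Real.sin (Real.pi * ε)) := by ring
      _ ≤ B' * N * (1.02 * Real.sin (Real.pi * (l * ε))) :=
          mul_le_mul_of_nonneg_left key (by positivity)
      _ = 1.02 * B' * (N * Real.sin (Real.pi * (l * ε))) := by ring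
  have hpair : ∀ y : ℝ, 0.1 * al m q 1 * (1 - Real.cos (2 * Real.pi * (ε * y))) ≤ K m q L y := by
    intro y
    have h := hP (al m q) L (2 * Real.pi * (ε * y)) hL1 ha0 ha1 ha2
    refine h.trans (le_of_eq ?_)
    unfold K
    rw [← hε]
    apply Finset.sum_congr rfl
    intro l _
    congr 3
    ring
  have hcos : ∀ s : ℝ, 0 ≤ 1 - Real.cos s := fun s => by linarith [Real.cos_le_one s]
  have hal1 := ha0 1 le_rfl hL1
  refine ⟨fun y => ?_, fun y hy => ?_⟩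
  · refine le_trans ?_ (hpair y)
    have := hcos (2 * Real.pi * (ε * y))
    positivity
  · refine le_trans ?_ (hpair y)
    rw [← hε] at hy
    have hc := cos_low (ε * y) hy
    have s2 := hs0 1 le_rfl hL1
    have h1 : 1 / (4 * N) / (N * (Real.pi * ε)) ≤ al m q 1 := by
      rw [hal, one_mul, one_mul, Nat.cast_one, one_mul, one_mul]
      rw [Nat.cast_one, one_mul] at s2
      rw [← hN] at hB3
      have t2 : Real.sin (Real.pi * ε) ≤ Real.pi * ε := Real.sin_le (by positivity)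
      apply div_le_div₀ (hbn _ _) hB3 (by positivity)
      exact mul_le_mul_of_nonneg_left t2 (by positivity)
    have hF : (0 : ℝ) < 5 ^ f m (q + 1) := by positivity
    have hNf : ((5 : ℝ) ^ f m q) = N := by rw [hN]; unfold Nq; push_cast; rfl
    rw [hNf]
    rw [← hN] at e1
    have h2 : 0.1 * (1 / (4 * N) / (N * (Real.pi * ε))) * (8 * (ε * y) ^ 2) ≤
        0.1 * al m q 1 * (1 - Real.cos (2 * Real.pi * (ε * y))) := by
      apply mul_le_mul _ hc (by positivity) (by positivity)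
      exact mul_le_mul_of_nonneg_left h1 (by norm_num)
    refine le_trans ?_ h2
    have h3 : 0.1 * (1 / (4 * N) / (N * (Real.pi * ε))) * (8 * (ε * y) ^ 2) =
        0.2 * ε * y ^ 2 / (Real.pi * N ^ 2) := by
      field_simp
      ring
    rw [h3]
    have h4 : 0.2 * (1.414 * N / (5 : ℝ) ^ f m (q + 1)) * y ^ 2 / (Real.pi * N ^ 2) ≤
        0.2 * ε * y ^ 2 / (Real.pi * N ^ 2) := by
      apply div_le_div_of_nonneg_right _ (by positivity)
      apply mul_le_mul_of_nonneg_right _ (by positivity)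
      exact mul_le_mul_of_nonneg_left e1 (by norm_num)
    refine le_trans ?_ h4
    have h5 : 0.2 * (1.414 * N / (5 : ℝ) ^ f m (q + 1)) * y ^ 2 / (Real.pi * N ^ 2) =
        (0.2828 / Real.pi) * (y ^ 2 / (N * 5 ^ f m (q + 1))) := by
      field_simp
      ring
    have h6 : y ^ 2 / (20 * N * (5 : ℝ) ^ f m (q + 1)) = (1 / 20) * (y ^ 2 / (N * 5 ^ f m (q + 1))) := by
      field_simp
    rw [h5, h6]
    apply mul_le_mul_of_nonneg_right _ (by positivity)
    rw [le_div_iff₀ hpi]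
    linarith

end Pool.Agent.Run7.h688.HRT
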