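import Pool.Agent.Run7.h688.HRT.KPOS

/-!
# HRT project (helper325), piece SPLIT (helper688)
-/

set_option autoImplicit false

namespace Pool.Agent.Run7.h688.HRT

open Pool.Agent.Run7.h325.HRT

/-- the terms of EXP -/
noncomputable def Tm (A x : ℝ) (n N i : ℕ) : ℝ := 2 / (N : ℝ) * sg N * b A N i *
  ((Real.cos (2 * Real.pi * (th A N i * x)) - Real.cos (2 * Real.pi * (th A N i * (x + n)))) /
    (2 * Real.sin (Real.pi * th A N i)))

lemma sg_abs (N : ℕ) : |sg N| ≤ 1 := by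
  unfold sg
  refine (Complex.abs_im_le_norm _).trans ?_
  rw [norm_pow, Complex.norm_I, one_pow]

lemma sg_mul (l n : ℕ) (h : n % 4 = 1) : sg (l * n) = sg l := by
  unfold sg
  have h1 : Complex.I ^ n = Complex.I := by
    have h2 : n = 4 * (n / 4) + 1 := by omega
    rw [h2, pow_add, pow_mul, Complex.I_pow_four, one_pow, one_mul, pow_one]
  rw [mul_comm, pow_mul, h1]

lemma b_sum (A : ℝ) (N : ℕ) : ∑ i ∈ Finset.range (N + 1), b A N i = 1 := by
  have h := add_pow A (1 - A) N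
  have e : A + (1 - A) = 1 := by ring
  rw [e, one_pow] at h
  rw [h]
  apply Finset.sum_congr rfl
  intro i _
  unfold b
  ring

/-- `|sin (π s)| ≥ 2 dist (s, ℤ)` -/
lemma sin_dist (s c : ℝ) (hc : 0 ≤ c) (h : ∀ p : ℤ, c ≤ |s - p|) : 2 * c ≤ |Real.sin (Real.pi * s)| := by
  have hpi := Real.pi_pos
  obtain ⟨u, hu⟩ : ∃ u : ℝ, u = s - round s := ⟨_, rfl⟩
  have h1 : |u| ≤ 1 / 2 := by rw [hu]; exact abs_sub_round s
  have h2 : c ≤ |u| := by rw [hu]; exact h (round s)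
  have h3 : |Real.sin (Real.pi * s)| = Real.sin (Real.pi * |u|) := by
    have e : Real.pi * s = Real.pi * u + (round s : ℤ) * Real.pi := by rw [hu]; ring
    rw [e, Real.sin_add_int_mul_pi, abs_mul]
    have e2 : |((-1 : ℝ)) ^ (round s : ℤ)| = 1 := by
      rw [abs_zpow, abs_neg, abs_one, one_zpow]
    rw [e2, one_mul]
    have h4 : 0 ≤ Real.sin (Real.pi * |u|) := by
      apply Real.sin_nonneg_of_nonneg_of_le_pi (by positivity)
      nlinarith
    rcases abs_cases u with ⟨h5, _⟩ | ⟨h5, _⟩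
    · rw [h5] at h4 ⊢
      exact abs_of_nonneg h4
    · rw [h5] at h4 ⊢
      rw [mul_neg, Real.sin_neg] at h4 ⊢
      rw [abs_of_nonpos (by linarith)]
  have h5 : 2 * |u| ≤ Real.sin (Real.pi * |u|) := by
    have h6 := Real.mul_le_sin (x := Real.pi * |u|) (by positivity) (by nlinarith [abs_nonneg u])
    have e : 2 / Real.pi * (Real.pi * |u|) = 2 * |u| := by field_simp
    rw [e] at h6
    exact h6
  rw [h3]
  linarith

lemma th_res (m q l : ℕ) : th (Am m) (l * Nq m q) (l * iq m q) = - (l * eps m q) := by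
  have hN := Nq_pos m q
  have hN0 : (Nq m q : ℝ) ≠ 0 := by linarith
  unfold th eps rho
  push_cast
  field_simp
  ring

/-- a resonant term -/
lemma Tm_res (x : ℝ) (n m q l : ℕ) (hl : 1 ≤ l) (hs : Real.sin (Real.pi * (l * eps m q)) ≠ 0)
    (h4 : Nq m q % 4 = 1) :
    Tm (Am m) x n (l * Nq m q) (l * iq m q) =
      -((sg l * al m q l * (1 - Real.cos (2 * Real.pi * (l * eps m q * (x + n))))) -
        (sg l * al m q l * (1 - Real.cos (2 * Real.pi * (l * eps m q * x))))) := by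
  have hN := Nq_pos m q
  have hN0 : (Nq m q : ℝ) ≠ 0 := by linarith
  have hl0 : (l : ℝ) ≠ 0 := by
    have : (1 : ℝ) ≤ l := by exact_mod_cast hl
    linarith
  unfold Tm
  rw [th_res, sg_mul _ _ h4]
  have e1 : 2 * Real.pi * (-(l * eps m q) * x) = -(2 * Real.pi * (l * eps m q * x)) := by ring
  have e2 : 2 * Real.pi * (-(l * eps m q) * (x + n)) = -(2 * Real.pi * (l * eps m q * (x + n))) := by ring
  have e3 : Real.pi * -(l * eps m q) = -(Real.pi * (l * eps m q)) := by ring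
  rw [e1, e2, e3, Real.cos_neg, Real.cos_neg, Real.sin_neg]
  unfold al
  push_cast
  field_simp
  ring

/-- a non resonant term -/
lemma Tm_non (A x c : ℝ) (n N i : ℕ) (hN : 1 ≤ N) (hc : 0 < c) (h0 : 0 ≤ A) (h1 : A ≤ 1)
    (h : ∀ p : ℤ, c / (N : ℝ) ^ 9 ≤ |th A N i - p|) :
    |Tm A x n N i| ≤ (N : ℝ) ^ 8 / c * b A N i := by
  have hNr : (1 : ℝ) ≤ N := by exact_mod_cast hN
  have hs := sin_dist (th A N i) (c / (N : ℝ) ^ 9) (by positivity) h
  have hs0 : 0 < |Real.sin (Real.pi * th A N i)| := lt_of_lt_of_le (by positivity) hs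
  have hb := b_nn A h0 h1 N i
  unfold Tm
  rw [abs_mul, abs_mul, abs_mul, abs_of_nonneg hb,
    abs_of_nonneg (show (0 : ℝ) ≤ 2 / (N : ℝ) by positivity), abs_div, abs_mul 2,
    abs_of_nonneg (show (0 : ℝ) ≤ 2 by norm_num)]
  have hcos : |Real.cos (2 * Real.pi * (th A N i * x)) - Real.cos (2 * Real.pi * (th A N i * (x + n)))| ≤ 2 := by
    have a1 := Real.abs_cos_le_one (2 * Real.pi * (th A N i * x))
    have a2 := Real.abs_cos_le_one (2 * Real.pi * (th A N i * (x + n)))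
    have a3 := abs_sub (Real.cos (2 * Real.pi * (th A N i * x))) (Real.cos (2 * Real.pi * (th A N i * (x + n))))
    linarith
  have hd : |Real.cos (2 * Real.pi * (th A N i * x)) - Real.cos (2 * Real.pi * (th A N i * (x + n)))| /
      (2 * |Real.sin (Real.pi * th A N i)|) ≤ (N : ℝ) ^ 9 / (2 * c) := by
    rw [div_le_div_iff₀ (by positivity) (by positivity)]
    have h2 : 2 * c ≤ (N : ℝ) ^ 9 * |Real.sin (Real.pi * th A N i)| := by
      have h3 : 2 * (c / (N : ℝ) ^ 9) * (N : ℝ) ^ 9 ≤ |Real.sin (Real.pi * th A N i)| * (N : ℝ) ^ 9 :=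
        mul_le_mul_of_nonneg_right hs (by positivity)
      have e : 2 * (c / (N : ℝ) ^ 9) * (N : ℝ) ^ 9 = 2 * c := by field_simp
      rw [e] at h3
      linarith
    calc |Real.cos (2 * Real.pi * (th A N i * x)) - Real.cos (2 * Real.pi * (th A N i * (x + n)))| * (2 * c)
        ≤ 2 * ((N : ℝ) ^ 9 * |Real.sin (Real.pi * th A N i)|) :=
          mul_le_mul hcos h2 (by positivity) (by norm_num)
      _ = (N : ℝ) ^ 9 * (2 * |Real.sin (Real.pi * th A N i)|) := by ring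
  calc 2 / (N : ℝ) * |sg N| * b A N i *
      (|Real.cos (2 * Real.pi * (th A N i * x)) - Real.cos (2 * Real.pi * (th A N i * (x + n)))| /
        (2 * |Real.sin (Real.pi * th A N i)|))
      ≤ 2 / (N : ℝ) * 1 * b A N i * ((N : ℝ) ^ 9 / (2 * c)) := by
        apply mul_le_mul _ hd (by positivity) (by positivity)
        apply mul_le_mul_of_nonneg_right _ hb
        exact mul_le_mul_of_nonneg_left (sg_abs N) (by positivity)
    _ = (N : ℝ) ^ 8 / c * b A N i := by
        field_simp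

/-- the resonance condition -/
def Res (m : ℕ) (p : Σ _ : ℕ, ℕ) : Prop := ∃ q l : ℕ, p.1 = l * Nq m q ∧ p.2 = l * iq m q ∧
  50 * l ^ 2 * (Nq m q) ^ 4 ≤ 5 ^ f m (q + 1)

lemma Nq_pos' (m q : ℕ) : 1 ≤ Nq m q := Nat.one_le_pow _ _ (by norm_num)

lemma q_lt (m q : ℕ) (hm : 1 ≤ m) : q < Nq m q := by
  unfold Nq f
  have h1 : q < 1024 ^ q := Nat.lt_pow_self (by norm_num)
  have h2 : 1024 ^ q ≤ m * 1024 ^ q := Nat.le_mul_of_pos_left _ (by omega)
  have h3 : m * 1024 ^ q < 5 ^ (m * 1024 ^ q) := Nat.lt_pow_self (by norm_num)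
  omega

lemma Lf_adm (m q M l : ℕ) (h1 : 1 ≤ l) (h2 : l ≤ Lf m q M) : Adm m q M l := by
  have h3 : Adm m q M (Lf m q M) := by
    unfold Lf
    apply Nat.findGreatest_of_ne_zero rfl
    unfold Lf at h2
    omega
  obtain ⟨h4, h5⟩ := h3
  constructor
  · refine le_trans ?_ h4
    apply Nat.mul_le_mul_right
    apply Nat.mul_le_mul_left
    exact Nat.pow_le_pow_left h2 2
  · exact (Nat.mul_le_mul_right _ h2).trans h5

/-- the approximations are different -/
lemma rho_inj (hA : S_APROP) (m q q' : ℕ) (hm : 1 ≤ m) (h : rho m q = rho m q') : q = q' := by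
  obtain ⟨_, _, hq⟩ := hA m hm
  have hlt : ∀ a b : ℕ, a < b → rho m b < rho m a := by
    intro a b hab
    obtain ⟨h1, -⟩ := hq a
    obtain ⟨-, h2, -⟩ := hq b
    have hf : f m (a + 1) + 1 ≤ f m (b + 1) := by
      unfold f
      have h3 : 1024 ^ (a + 1) < 1024 ^ (b + 1) := Nat.pow_lt_pow_right (by norm_num) (by omega)
      have h4 : m * 1024 ^ (a + 1) < m * 1024 ^ (b + 1) := Nat.mul_lt_mul_of_pos_left h3 (by omega)
      omega
    have h5 : ((5 : ℝ) ^ f m (b + 1))⁻¹ ≤ ((5 : ℝ) ^ (f m (a + 1) + 1))⁻¹ := by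
      apply inv_anti₀ (by positivity)
      exact pow_le_pow_right₀ (by norm_num) hf
    have h6 : ((5 : ℝ) ^ (f m (a + 1) + 1))⁻¹ = ((5 : ℝ) ^ f m (a + 1))⁻¹ / 5 := by
      rw [pow_succ, mul_inv, div_eq_mul_inv]
    have h7 : 0 < ((5 : ℝ) ^ f m (a + 1))⁻¹ := by positivity
    linarith
  rcases lt_trichotomy q q' with h1 | h1 | h1
  · have := hlt _ _ h1; linarith
  · exact h1
  · have := hlt _ _ h1; linarith

lemma idx_inj (hA : S_APROP) (m q l q' l' : ℕ) (hm : 1 ≤ m) (hl : 1 ≤ l) (hl' : 1 ≤ l')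
    (h1 : l * Nq m q = l' * Nq m q') (h2 : l * iq m q = l' * iq m q') : q = q' ∧ l = l' := by
  have hN := Nq_pos m q
  have hN' := Nq_pos m q'
  have hlr : (1 : ℝ) ≤ l := by exact_mod_cast hl
  have hlr' : (1 : ℝ) ≤ l' := by exact_mod_cast hl'
  have h1r : (l : ℝ) * Nq m q = l' * Nq m q' := by exact_mod_cast h1
  have h2r : (l : ℝ) * iq m q = l' * iq m q' := by exact_mod_cast h2
  have e : (iq m q : ℝ) / Nq m q = iq m q' / Nq m q' := by
    have e1 : (iq m q : ℝ) / Nq m q = (l * iq m q) / (l * Nq m q) := by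
      rw [mul_div_mul_left _ _ (by linarith)]
    have e2 : (iq m q' : ℝ) / Nq m q' = (l' * iq m q') / (l' * Nq m q') := by
      rw [mul_div_mul_left _ _ (by linarith)]
    rw [e1, e2, h1r, h2r]
  have hq : q = q' := by
    apply rho_inj hA m q q' hm
    unfold rho
    rw [e]
  subst hq
  refine ⟨rfl, ?_⟩
  exact Nat.eq_of_mul_eq_mul_right (Nq_pos' m q) h1

open Classical in
/-- **SPLIT** -/
theorem t_SPLIT (hA : S_APROP) (hD : S_DIO) (hE : S_EXP) : S_SPLIT := by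
  intro m hm
  obtain ⟨hA0, hA1, hq⟩ := hA m hm
  obtain ⟨c, hc, hD⟩ := hD m hm
  refine ⟨1 / c, by positivity, fun x n M hM => ?_⟩
  obtain ⟨Pr, hPr⟩ : ∃ Pr : Finset (Σ _ : ℕ, ℕ), Pr = (Finset.Icc 1 M).sigma (fun N => Finset.range (N + 1)) :=
    ⟨_, rfl⟩
  obtain ⟨Ix, hIx⟩ : ∃ Ix : Finset (Σ _ : ℕ, ℕ), Ix =
      (Finset.range M).sigma (fun q => Finset.Icc 1 (Lf m q M)) := ⟨_, rfl⟩
  have hPm : ∀ p : (Σ _ : ℕ, ℕ), p ∈ Pr ↔ (1 ≤ p.1 ∧ p.1 ≤ M) ∧ p.2 ≤ p.1 := by
    intro p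
    rw [hPr, Finset.mem_sigma, Finset.mem_Icc, Finset.mem_range]
    omega
  have hIm : ∀ p : (Σ _ : ℕ, ℕ), p ∈ Ix ↔ p.1 < M ∧ 1 ≤ p.2 ∧ p.2 ≤ Lf m p.1 M := by
    intro p
    rw [hIx, Finset.mem_sigma, Finset.mem_Icc, Finset.mem_range]
  -- facts on the index set
  have hIadm : ∀ p ∈ Ix, Adm m p.1 M p.2 := by
    intro p hp
    rw [hIm] at hp
    exact Lf_adm m p.1 M p.2 hp.2.1 hp.2.2
  have hIs : ∀ p ∈ Ix, Real.sin (Real.pi * (p.2 * eps m p.1)) ≠ 0 := by
    intro p hp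
    have h1 := hIadm p hp
    rw [hIm] at hp
    have h2 := sq_eps hA m p.1 p.2 hm h1.1 p.2 le_rfl
    have h3 := eps_pos hA m p.1 hm
    have h4 : (1 : ℝ) ≤ p.2 := by exact_mod_cast hp.2.1
    apply ne_of_gt
    apply Real.sin_pos_of_pos_of_lt_pi
    · have := Real.pi_pos
      positivity
    · have h5 : (p.2 : ℝ) * eps m p.1 ≤ (p.2 : ℝ) ^ 2 * eps m p.1 := by
        have : 0 ≤ (p.2 : ℝ) * eps m p.1 := by positivity
        nlinarith
      nlinarith [Real.pi_pos]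
  -- the resonant pairs
  have hres : ∑ p ∈ Pr.filter (Res m), Tm (Am m) x n p.1 p.2 =
      ∑ p ∈ Ix, Tm (Am m) x n (p.2 * Nq m p.1) (p.2 * iq m p.1) := by
    symm
    apply Finset.sum_bij (fun (p : Σ _ : ℕ, ℕ) (_ : p ∈ Ix) =>
      (⟨p.2 * Nq m p.1, p.2 * iq m p.1⟩ : Σ _ : ℕ, ℕ))
    · intro p hp
      have h1 := hIadm p hp
      rw [hIm] at hp
      rw [Finset.mem_filter, hPm]
      have h2 := Nq_pos' m p.1
      have h3 : iq m p.1 ≤ Nq m p.1 := by
        have := (hq p.1).2.2.2.1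
        omega
      refine ⟨⟨⟨Nat.mul_pos hp.2.1 h2, h1.2⟩, Nat.mul_le_mul_left _ h3⟩, ?_⟩
      exact ⟨p.1, p.2, rfl, rfl, h1.1⟩
    · intro p hp p' hp' h
      rw [hIm] at hp hp'
      have h1 : p.2 * Nq m p.1 = p'.2 * Nq m p'.1 := congrArg Sigma.fst h
      have h2 : p.2 * iq m p.1 = p'.2 * iq m p'.1 := congrArg (fun z : (Σ _ : ℕ, ℕ) => z.2) h
      obtain ⟨h3, h4⟩ := idx_inj hA m _ _ _ _ hm hp.2.1 hp'.2.1 h1 h2
      obtain ⟨a, b⟩ := p
      obtain ⟨a', b'⟩ := p'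
      simp only at h3 h4
      rw [h3, h4]
    · intro p hp
      rw [Finset.mem_filter, hPm] at hp
      obtain ⟨⟨⟨h1, h2⟩, _⟩, q, l, h4, h5, h6⟩ := hp
      have hl : 1 ≤ l := by
        by_contra hcon
        have : l = 0 := by omega
        rw [this, zero_mul] at h4
        omega
      have hNl : l * Nq m q ≤ M := by rw [← h4]; exact h2
      have hlM : l ≤ M := (Nat.le_mul_of_pos_right _ (Nq_pos' m q)).trans hNl
      refine ⟨⟨q, l⟩, ?_, ?_⟩
      · rw [hIm]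
        refine ⟨?_, hl, ?_⟩
        · have h7 := q_lt m q hm
          have h8 : Nq m q ≤ l * Nq m q := Nat.le_mul_of_pos_left _ hl
          show q < M
          omega
        · unfold Lf
          exact Nat.le_findGreatest hlM ⟨h6, hNl⟩
      · show (⟨l * Nq m q, l * iq m q⟩ : Σ _ : ℕ, ℕ) = p
        rw [← h4, ← h5]
    · intro p hp
      rfl
  have hres2 : ∑ p ∈ Ix, Tm (Am m) x n (p.2 * Nq m p.1) (p.2 * iq m p.1) =
      - ∑ q ∈ Finset.range M, (K m q (Lf m q M) (x + n) - K m q (Lf m q M) x) := by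
    have h1 : ∑ p ∈ Ix, Tm (Am m) x n (p.2 * Nq m p.1) (p.2 * iq m p.1) =
        ∑ p ∈ Ix, -((sg p.2 * al m p.1 p.2 * (1 - Real.cos (2 * Real.pi * (p.2 * eps m p.1 * (x + n))))) -
        (sg p.2 * al m p.1 p.2 * (1 - Real.cos (2 * Real.pi * (p.2 * eps m p.1 * x))))) := by
      apply Finset.sum_congr rfl
      intro p hp
      have h2 := hIs p hp
      rw [hIm] at hp
      exact Tm_res x n m p.1 p.2 hp.2.1 h2 (hq p.1).2.2.2.2.2.2
    rw [h1, hIx, Finset.sum_sigma, ← Finset.sum_neg_distrib]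
    apply Finset.sum_congr rfl
    intro q _
    unfold K
    rw [← Finset.sum_sub_distrib, ← Finset.sum_neg_distrib]
  -- no integer frequency
  have hsin : ∀ N i : ℕ, 1 ≤ N → N ≤ M → i ≤ N → Real.sin (Real.pi * th (Am m) N i) ≠ 0 := by
    intro N i h1 h2 h3
    rcases hD N i h1 h3 with ⟨q, l, h4, h5, h6⟩ | h4
    · rw [h4, h5, th_res, mul_neg, Real.sin_neg]
      apply neg_ne_zero.2
      have hl : 1 ≤ l := by
        by_contra hcon
        have : l = 0 := by omega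
        rw [this, zero_mul] at h4
        omega
      have g2 := sq_eps hA m q l hm h6 l le_rfl
      have g3 := eps_pos hA m q hm
      have g4 : (1 : ℝ) ≤ l := by exact_mod_cast hl
      apply ne_of_gt
      apply Real.sin_pos_of_pos_of_lt_pi
      · have := Real.pi_pos
        positivity
      · have h5 : (l : ℝ) * eps m q ≤ (l : ℝ) ^ 2 * eps m q := by
          have : 0 ≤ (l : ℝ) * eps m q := by positivity
          nlinarith
        nlinarith [Real.pi_pos]
    · have hNr : (1 : ℝ) ≤ N := by exact_mod_cast h1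
      have h5 := sin_dist _ _ (by positivity) h4
      intro h6
      rw [h6, abs_zero] at h5
      have : 0 < 2 * (c / (N : ℝ) ^ 9) := by positivity
      linarith
  have hsum : ∑ k ∈ Finset.range n, phiM (Am m) M (x + k + 1 / 2) =
      ∑ p ∈ Pr, Tm (Am m) x n p.1 p.2 := by
    rw [hE (Am m) x M n hsin, hPr, Finset.sum_sigma]
    rfl
  have hsplit : ∑ p ∈ Pr, Tm (Am m) x n p.1 p.2 = ∑ p ∈ Pr.filter (Res m), Tm (Am m) x n p.1 p.2 +
      ∑ p ∈ Pr.filter (fun p => ¬ Res m p), Tm (Am m) x n p.1 p.2 :=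
    (Finset.sum_filter_add_sum_filter_not _ _ _).symm
  rw [hsum, hsplit, hres, hres2]
  have e : ∀ u v : ℝ, -u + v + u = v := by intro u v; ring
  rw [e]
  -- the non resonant part
  calc |∑ p ∈ Pr.filter (fun p => ¬ Res m p), Tm (Am m) x n p.1 p.2|
      ≤ ∑ p ∈ Pr.filter (fun p => ¬ Res m p), |Tm (Am m) x n p.1 p.2| := Finset.abs_sum_le_sum_abs _ _
    _ ≤ ∑ p ∈ Pr.filter (fun p => ¬ Res m p), (M : ℝ) ^ 8 / c * b (Am m) p.1 p.2 := by
        apply Finset.sum_le_sum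
        intro p hp
        rw [Finset.mem_filter, hPm] at hp
        obtain ⟨⟨⟨h1, h2⟩, h3⟩, h4⟩ := hp
        rcases hD p.1 p.2 h1 h3 with h5 | h5
        · exact absurd h5 h4
        · refine (Tm_non (Am m) x c n p.1 p.2 h1 hc hA0.le (by linarith) h5).trans ?_
          apply mul_le_mul_of_nonneg_right _ (b_nn _ hA0.le (by linarith) _ _)
          apply div_le_div_of_nonneg_right _ hc.le
          exact pow_le_pow_left₀ (Nat.cast_nonneg _) (by exact_mod_cast h2) 8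
    _ ≤ ∑ p ∈ Pr, (M : ℝ) ^ 8 / c * b (Am m) p.1 p.2 := by
        apply Finset.sum_le_sum_of_subset_of_nonneg (Finset.filter_subset _ _)
        intro p _ _
        have := b_nn (Am m) hA0.le (by linarith) p.1 p.2
        positivity
    _ = ∑ N ∈ Finset.Icc 1 M, (M : ℝ) ^ 8 / c := by
        rw [hPr, Finset.sum_sigma]
        apply Finset.sum_congr rfl
        intro N _
        rw [← Finset.mul_sum, b_sum, mul_one]
    _ = M * ((M : ℝ) ^ 8 / c) := by
        rw [Finset.sum_const, Nat.card_Icc, nsmul_eq_mul, Nat.add_sub_cancel]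
    _ = 1 / c * (M : ℝ) ^ 9 := by ring
    _ ≤ 1 / c * (M : ℝ) ^ 10 := by
        apply mul_le_mul_of_nonneg_left _ (by positivity)
        apply pow_le_pow_right₀ _ (by norm_num)
        exact_mod_cast hM

end Pool.Agent.Run7.h688.HRT
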